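import Pool.Agent.T1B.Transport
import Pool.Agent.TSF.Basic

/-!
# Fields dominated by a product of two curves
-/

set_option autoImplicit false

namespace Pool.Agent.T1B

universe u

open Cardinal Algebra Pool.Agent.TSF

open scoped IntermediateField.algebraAdjoinAdjoin in
theorem trdeg_adjoin_le_mk {k M : Type u} [Field k] [Field M] [Algebra k M] (T : Set M) :
    Algebra.trdeg k (IntermediateField.adjoin k T) ≤ #T := by
  have h1 : Algebra.trdeg k (Algebra.adjoin k T) ≤ #T := by
    have h2 : Algebra.adjoin k T = (MvPolynomial.aeval (R := k) (fun x : T => (x : M))).range := by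
      rw [← Algebra.adjoin_range_eq_range_aeval, Subtype.range_coe]
    rw [h2]
    calc Algebra.trdeg k (MvPolynomial.aeval (R := k) (fun x : T => (x : M))).range ≤
          Algebra.trdeg k (MvPolynomial T k) := trdeg_le_of_surjective _
            (MvPolynomial.aeval (R := k) (fun x : T => (x : M))).rangeRestrict_surjective
      _ = #T := by
        rw [MvPolynomial.trdeg_of_isDomain, lift_id]
  have h2 : Algebra.trdeg (Algebra.adjoin k T) (IntermediateField.adjoin k T) = 0 := by
    have : Algebra.IsAlgebraic (Algebra.adjoin k T) (IntermediateField.adjoin k T) :=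
      (IsFractionRing.comap_isAlgebraic_iff (A := Algebra.adjoin k T)
        (K := IntermediateField.adjoin k T) (C := IntermediateField.adjoin k T)).2 inferInstance
    exact trdeg_eq_zero
  have h3 := trdeg_add_eq k (Algebra.adjoin k T)
    (A := (IntermediateField.adjoin k T))
  rw [← h3, h2, add_zero]
  exact h1

theorem trdeg_le_mk {k M : Type u} [Field k] [Field M] [Algebra k M] (T : Set M)
    (E : IntermediateField k M) (hE : ∀ a ∈ E, IsAlgebraic (IntermediateField.adjoin k T) a) :
    Algebra.trdeg k E ≤ #T := by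
  set L := IntermediateField.adjoin k T with hL
  set A := algebraicClosure L M with hA
  have h1 : Algebra.trdeg k A ≤ #T := by
    have h3 := trdeg_add_eq k L (A := A)
    have h4 : Algebra.trdeg L A = 0 := trdeg_eq_zero
    rw [← h3, h4, add_zero]
    exact trdeg_adjoin_le_mk T
  have h2 : E ≤ A.restrictScalars k := fun a ha => mem_algebraicClosure_iff.2 (hE a ha)
  refine le_trans ?_ h1
  exact trdeg_le_of_injective (IntermediateField.inclusion h2)
    (IntermediateField.inclusion_injective h2)

/-- a small set over which the field is algebraic -/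
theorem exists_small {k M : Type u} [Field k] [Field M] [Algebra k M] (E : IntermediateField k M)
    (h : Algebra.trdeg k E ≤ 1) : ∃ T : Set M, #T ≤ 1 ∧
      ∀ a ∈ E, IsAlgebraic (IntermediateField.adjoin k T) a := by
  obtain ⟨s, hs⟩ := exists_isTranscendenceBasis k E
  refine ⟨(fun x : E => (x : M)) '' s, ?_, ?_⟩
  · exact mk_image_le.trans (hs.1.cardinalMk_le_trdeg.trans h)
  · intro a ha
    have h1 : Algebra.IsAlgebraic (Algebra.adjoin k s) E := by
      have := hs.isAlgebraic
      rwa [Subtype.range_coe] at this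
    obtain ⟨p, hp0, hp⟩ := h1.isAlgebraic ⟨a, ha⟩
    have hmem : ∀ x ∈ Algebra.adjoin k s, ((x : E) : M) ∈
        IntermediateField.adjoin k ((fun x : E => (x : M)) '' s) := by
      intro x hx
      refine Algebra.adjoin_induction (p := fun x _ => ((x : E) : M) ∈
        IntermediateField.adjoin k ((fun x : E => (x : M)) '' s)) ?_ ?_ ?_ ?_ hx
      · intro y hy
        exact IntermediateField.subset_adjoin k _ ⟨y, hy, rfl⟩
      · intro r
        exact IntermediateField.algebraMap_mem _ r
      · intro y z _ _ hy hz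
        exact add_mem hy hz
      · intro y z _ _ hy hz
        exact mul_mem hy hz
    let f : Algebra.adjoin k s →+* IntermediateField.adjoin k ((fun x : E => (x : M)) '' s) :=
      { toFun := fun x => ⟨((x : E) : M), hmem x x.2⟩
        map_one' := rfl
        map_zero' := rfl
        map_add' := fun _ _ => rfl
        map_mul' := fun _ _ => rfl }
    have hf : Function.Injective f := by
      intro x y hxy
      have h2 := congrArg (fun z : IntermediateField.adjoin k ((fun x : E => (x : M)) '' s) =>
        (z : M)) hxy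
      exact Subtype.ext (Subtype.ext h2)
    refine ⟨p.map f, (Polynomial.map_ne_zero_iff hf).2 hp0, ?_⟩
    rw [Polynomial.aeval_def, Polynomial.eval₂_map]
    have h3 := congrArg (algebraMap E M) hp
    rw [map_zero, Polynomial.aeval_def, Polynomial.hom_eval₂] at h3
    exact h3

theorem trdeg_sup_le {k M : Type u} [Field k] [Field M] [Algebra k M]
    (K₁ K₂ : IntermediateField k M) (h₁ : Algebra.trdeg k K₁ ≤ 1) (h₂ : Algebra.trdeg k K₂ ≤ 1) :
    Algebra.trdeg k (K₁ ⊔ K₂ : IntermediateField k M) ≤ 2 := by
  obtain ⟨T₁, hc₁, hT₁⟩ := exists_small K₁ h₁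
  obtain ⟨T₂, hc₂, hT₂⟩ := exists_small K₂ h₂
  have hle : #(T₁ ∪ T₂ : Set M) ≤ 2 := by
    refine (mk_union_le _ _).trans ((add_le_add hc₁ hc₂).trans ?_)
    rw [one_add_one_eq_two]
  refine (trdeg_le_mk (T₁ ∪ T₂) _ ?_).trans hle
  have h1 : IntermediateField.adjoin k T₁ ≤ IntermediateField.adjoin k (T₁ ∪ T₂) :=
    IntermediateField.adjoin.mono k _ _ Set.subset_union_left
  have h2 : IntermediateField.adjoin k T₂ ≤ IntermediateField.adjoin k (T₁ ∪ T₂) :=
    IntermediateField.adjoin.mono k _ _ Set.subset_union_right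
  have key : ∀ {A B : IntermediateField k M} (_ : A ≤ B) {a : M}, IsAlgebraic A a →
      IsAlgebraic B a := by
    rintro A B hAB a ⟨p, hp0, hp⟩
    refine ⟨p.map (IntermediateField.inclusion hAB : A →+* B),
      (Polynomial.map_ne_zero_iff (IntermediateField.inclusion_injective hAB)).2 hp0, ?_⟩
    rw [Polynomial.aeval_def, Polynomial.eval₂_map]
    exact hp
  have h3 : K₁ ⊔ K₂ ≤
      (algebraicClosure (IntermediateField.adjoin k (T₁ ∪ T₂)) M).restrictScalars k := by
    refine sup_le (fun a ha => ?_) (fun a ha => ?_)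
    · exact mem_algebraicClosure_iff.2 (key h1 (hT₁ a ha))
    · exact mem_algebraicClosure_iff.2 (key h2 (hT₂ a ha))
  exact fun a ha => mem_algebraicClosure_iff.1 (h3 ha)

/-- Fields of transcendence degree two inside the compositum of two function fields of curves. -/
theorem T1.of_embedding {k K M : Type u} [Field k] [Field K] [Field M] [Algebra k K] [Algebra k M]
    {ℓ : ℕ} (hℓ : ℓ.Prime) (ι : K →ₐ[k] M) (K₁ K₂ : IntermediateField k M) (hfg₁ : K₁.FG)
    (hfg₂ : K₂.FG) (h₁ : Algebra.trdeg k K₁ ≤ 1) (h₂ : Algebra.trdeg k K₂ ≤ 1)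
    (hle : ι.fieldRange ≤ K₁ ⊔ K₂) (ht : Algebra.trdeg k K = 2)
    (hT : T1 k (K₁ ⊔ K₂ : IntermediateField k M) ℓ) : T1 k K ℓ := by
  let L : IntermediateField k M := K₁ ⊔ K₂
  let j : K →ₐ[k] L := ι.codRestrict L.toSubalgebra (fun x => hle ⟨x, rfl⟩)
  let _ : Algebra K L := j.toRingHom.toAlgebra
  have _ : IsScalarTower k K L := IsScalarTower.of_algebraMap_eq (fun x => (j.commutes x).symm)
  have hL : Algebra.trdeg k L ≤ 2 := trdeg_sup_le K₁ K₂ h₁ h₂
  have hadd := trdeg_add_eq k K (A := L)
  have h0 : Algebra.trdeg K L = 0 := by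
    rw [ht] at hadd
    have h3 : Algebra.trdeg K L + 2 ≤ 0 + 2 := by rw [add_comm, hadd, zero_add]; exact hL
    have h4 : Algebra.trdeg K L ≤ 0 := by
      refine (Cardinal.add_le_add_iff_of_lt_aleph0 ?_).1 h3
      exact_mod_cast Cardinal.natCast_lt_aleph0 (n := 2)
    exact nonpos_iff_eq_zero.1 h4
  have halg : Algebra.IsAlgebraic K L := by
    exact trdeg_eq_zero_iff.1 h0
  have hfg : L.FG := IntermediateField.fg_sup hfg₁ hfg₂
  have hess : Algebra.EssFiniteType k L := IntermediateField.essFiniteType_iff.2 hfg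
  have hess' : Algebra.EssFiniteType K L := Algebra.EssFiniteType.of_comp k K L
  have hfin : FiniteDimensional K L := Algebra.finite_of_essFiniteType_of_isAlgebraic
  exact T1.descend hℓ hT

end Pool.Agent.T1B
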