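import Pool.Agent.T1B.Defs

/-!
# The transfer of 2-cocycles
-/

set_option autoImplicit false

namespace Pool.Agent.T1B

universe u

variable {F Ω : Type u} [Field F] [Field Ω] [Algebra F Ω]

theorem LC1.mk' {b : (Ω ≃ₐ[F] Ω) → Ωˣ} (S : Set (Ω ≃ₐ[F] Ω)) (E : IntermediateField F Ω)
    (hE : FiniteDimensional F E)
    (h : ∀ σ ∈ S, ∀ σ' ∈ S, (∀ x ∈ E, σ x = σ' x) → b σ = b σ') :
    ∃ b' : (Ω ≃ₐ[F] Ω) → Ωˣ, LC1 b' ∧ ∀ σ ∈ S, b' σ = b σ := by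
  classical
  refine ⟨fun σ => if hσ : ∃ σ' ∈ S, ∀ x ∈ E, σ x = σ' x then b hσ.choose else 1, ?_, ?_⟩
  · refine ⟨E, hE, fun σ σ' hσ => ?_⟩
    by_cases h1 : ∃ τ ∈ S, ∀ x ∈ E, σ x = τ x
    · have h2 : ∃ τ ∈ S, ∀ x ∈ E, σ' x = τ x := by
        obtain ⟨τ, hτ, h3⟩ := h1
        exact ⟨τ, hτ, fun x hx => (hσ x hx).symm.trans (h3 x hx)⟩
      simp only [dif_pos h1, dif_pos h2]
      refine h _ h1.choose_spec.1 _ h2.choose_spec.1 (fun x hx => ?_)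
      rw [← h1.choose_spec.2 x hx, ← h2.choose_spec.2 x hx]
      exact hσ x hx
    · have h2 : ¬ ∃ τ ∈ S, ∀ x ∈ E, σ' x = τ x := by
        rintro ⟨τ, hτ, h3⟩
        exact h1 ⟨τ, hτ, fun x hx => (hσ x hx).trans (h3 x hx)⟩
      simp only [dif_neg h1, dif_neg h2]
  · intro σ hσ
    have h1 : ∃ τ ∈ S, ∀ x ∈ E, σ x = τ x := ⟨σ, hσ, fun _ _ => rfl⟩
    simp only [dif_pos h1]
    exact h _ h1.choose_spec.1 _ hσ (fun x hx => (h1.choose_spec.2 x hx).symm)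

theorem LC1.mul {b b' : (Ω ≃ₐ[F] Ω) → Ωˣ} (hb : LC1 b) (hb' : LC1 b') :
    LC1 (fun σ => b σ * b' σ) := by
  obtain ⟨E, hE, h⟩ := hb
  obtain ⟨E', hE', h'⟩ := hb'
  refine ⟨E ⊔ E', IntermediateField.finiteDimensional_sup E E', fun σ σ' hσ => ?_⟩
  show b σ * b' σ = b σ' * b' σ'
  rw [h σ σ' (fun x hx => hσ x ((le_sup_left : E ≤ E ⊔ E') hx)),
    h' σ σ' (fun x hx => hσ x ((le_sup_right : E' ≤ E ⊔ E') hx))]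

theorem LC1.pow {b : (Ω ≃ₐ[F] Ω) → Ωˣ} (hb : LC1 b) (n : ℤ) : LC1 (fun σ => b σ ^ n) := by
  obtain ⟨E, hE, h⟩ := hb
  exact ⟨E, hE, fun σ σ' hσ => by show b σ ^ n = b σ' ^ n; rw [h σ σ' hσ]⟩

theorem LC1.smul {b : (Ω ≃ₐ[F] Ω) → Ωˣ} (hb : LC1 b) (g : Ω ≃ₐ[F] Ω) :
    LC1 (fun σ => g • b σ) := by
  obtain ⟨E, hE, h⟩ := hb
  exact ⟨E, hE, fun σ σ' hσ => by show g • b σ = g • b σ'; rw [h σ σ' hσ]⟩

theorem LC1.one : LC1 (fun _ : Ω ≃ₐ[F] Ω => (1 : Ωˣ)) :=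
  ⟨⊥, inferInstance, fun _ _ _ => rfl⟩

theorem Triv.mul {D : Subgroup (Ω ≃ₐ[F] Ω)} {c c' : (Ω ≃ₐ[F] Ω) → (Ω ≃ₐ[F] Ω) → Ωˣ}
    (hc : Triv D c) (hc' : Triv D c') : Triv D (fun σ τ => c σ τ * c' σ τ) := by
  obtain ⟨b, hb, h⟩ := hc
  obtain ⟨b', hb', h'⟩ := hc'
  refine ⟨_, hb.mul hb', fun σ hσ τ hτ => ?_⟩
  show c σ τ * c' σ τ * (b (σ * τ) * b' (σ * τ)) = b σ * b' σ * σ • (b τ * b' τ)
  rw [smul_mul', mul_mul_mul_comm, h σ hσ τ hτ, h' σ hσ τ hτ, mul_mul_mul_comm]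

theorem Triv.pow {D : Subgroup (Ω ≃ₐ[F] Ω)} {c : (Ω ≃ₐ[F] Ω) → (Ω ≃ₐ[F] Ω) → Ωˣ}
    (hc : Triv D c) (n : ℤ) : Triv D (fun σ τ => c σ τ ^ n) := by
  obtain ⟨b, hb, h⟩ := hc
  refine ⟨_, hb.pow n, fun σ hσ τ hτ => ?_⟩
  show c σ τ ^ n * b (σ * τ) ^ n = b σ ^ n * σ • (b τ ^ n)
  rw [← mul_zpow, h σ hσ τ hτ, mul_zpow]
  congr 1
  exact (map_zpow (MulDistribMulAction.toMonoidHom Ωˣ σ) (b τ) n).symm

theorem Triv.mono {D D' : Subgroup (Ω ≃ₐ[F] Ω)} (hD : D ≤ D')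
    {c : (Ω ≃ₐ[F] Ω) → (Ω ≃ₐ[F] Ω) → Ωˣ} (hc : Triv D' c) : Triv D c := by
  obtain ⟨b, hb, h⟩ := hc
  exact ⟨b, hb, fun σ hσ τ hτ => h σ (hD hσ) τ (hD hτ)⟩

theorem Triv.congr {D : Subgroup (Ω ≃ₐ[F] Ω)} {c c' : (Ω ≃ₐ[F] Ω) → (Ω ≃ₐ[F] Ω) → Ωˣ}
    (hc : Triv D c) (h : ∀ σ ∈ D, ∀ τ ∈ D, c σ τ = c' σ τ) : Triv D c' := by
  obtain ⟨b, hb, h'⟩ := hc
  exact ⟨b, hb, fun σ hσ τ hτ => by rw [← h σ hσ τ hτ]; exact h' σ hσ τ hτ⟩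

/-- the identity behind the transfer -/
theorem transfer_identity {A : Type*} [CommGroup A] {cst csT csT1 scT1n cT2m cT2mn cA cB scA : A}
    (h1 : cst * cB = scA * csT)
    (h2 : csT1 * cA = scT1n * csT)
    (h3 : cT2m * cA = cT2mn) :
    cst = (scA * scT1n⁻¹) * (csT1 * cT2m⁻¹) * (cB * cT2mn⁻¹)⁻¹ := by
  have e1 : csT = scT1n⁻¹ * (csT1 * cA) := by rw [h2, inv_mul_cancel_left]
  have e2 : cst = scA * csT * cB⁻¹ := by rw [← h1, mul_inv_cancel_right]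
  rw [e2, e1, ← h3]
  apply Additive.ofMul.injective
  simp only [ofMul_mul, ofMul_inv]
  abel

end Pool.Agent.T1B
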