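import Pool.Agent.T1B.Transfer

/-!
# The transfer of 2-cocycles: restriction to a subgroup of finite index
-/

set_option autoImplicit false

namespace Pool.Agent.T1B

universe u

variable {F Ω : Type u} [Field F] [Field Ω] [Algebra F Ω]

/-- a field stable under all automorphisms -/
def Stable (E : IntermediateField F Ω) : Prop := ∀ (σ : Ω ≃ₐ[F] Ω), ∀ x ∈ E, σ x ∈ E

/-- two automorphisms agree on `E` -/
def Eqv (E : IntermediateField F Ω) (σ τ : Ω ≃ₐ[F] Ω) : Prop := ∀ x ∈ E, σ x = τ x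

theorem exists_stable [Normal F Ω] (E : IntermediateField F Ω)
    [FiniteDimensional F E] : ∃ E' : IntermediateField F Ω, FiniteDimensional F E' ∧ Stable E' ∧
      E ≤ E' := by
  refine ⟨IntermediateField.normalClosure F E Ω, inferInstance, ?_, ?_⟩
  · intro σ x hx
    have h1 : Normal F (IntermediateField.normalClosure F E Ω) := inferInstance
    rw [IntermediateField.normal_iff_forall_map_le'] at h1
    exact h1 σ ⟨x, hx, rfl⟩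
  · exact E.le_normalClosure

theorem Eqv.refl (E : IntermediateField F Ω) (σ : Ω ≃ₐ[F] Ω) : Eqv E σ σ := fun _ _ => rfl

theorem Eqv.mono {E E' : IntermediateField F Ω} (h : E ≤ E') {σ τ : Ω ≃ₐ[F] Ω}
    (h1 : Eqv E' σ τ) : Eqv E σ τ := fun x hx => h1 x (h hx)

theorem Eqv.mul {E : IntermediateField F Ω} (hE : Stable E) {σ σ' τ τ' : Ω ≃ₐ[F] Ω}
    (h : Eqv E σ σ') (h' : Eqv E τ τ') : Eqv E (σ * τ) (σ' * τ') := by
  intro x hx
  rw [AlgEquiv.mul_apply, AlgEquiv.mul_apply, ← h' x hx]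
  exact h _ (hE τ x hx)

theorem Eqv.inv {E : IntermediateField F Ω} (hE : Stable E) {σ σ' : Ω ≃ₐ[F] Ω}
    (h : Eqv E σ σ') : Eqv E σ⁻¹ σ'⁻¹ := by
  intro x hx
  have h1 : σ' (σ⁻¹ x) = x := by
    rw [← h _ (hE σ⁻¹ x hx)]
    exact σ.apply_symm_apply x
  calc σ⁻¹ x = σ'⁻¹ (σ' (σ⁻¹ x)) := (σ'.symm_apply_apply _).symm
    _ = σ'⁻¹ x := by rw [h1]

section

variable (N : Subgroup (Ω ≃ₐ[F] Ω)) (E' : IntermediateField F Ω)

/-- the embeddings of `E'` which come from `N` -/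
def Emb : Type u := {f : E' →ₐ[F] Ω // ∃ σ ∈ N, ∀ x : E', σ (x : Ω) = f x}

instance [FiniteDimensional F E'] : Finite (Emb N E') := by
  unfold Emb
  infer_instance

variable {N E'}

/-- representatives -/
noncomputable def Emb.rep (q : Emb N E') : Ω ≃ₐ[F] Ω := q.2.choose

theorem Emb.rep_mem (q : Emb N E') : q.rep ∈ N := q.2.choose_spec.1

theorem Emb.rep_apply (q : Emb N E') (x : E') : q.rep (x : Ω) = q.1 x := q.2.choose_spec.2 x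

/-- the action on embeddings -/
def Emb.act (σ : Ω ≃ₐ[F] Ω) (hσ : σ ∈ N) (q : Emb N E') : Emb N E' :=
  ⟨σ.toAlgHom.comp q.1, by
    obtain ⟨τ, hτ, h⟩ := q.2
    exact ⟨σ * τ, N.mul_mem hσ hτ, fun x => by
      rw [AlgEquiv.mul_apply, h x]
      rfl⟩⟩

theorem Emb.act_mul (σ τ : Ω ≃ₐ[F] Ω) (hσ : σ ∈ N) (hτ : τ ∈ N) (q : Emb N E') :
    Emb.act (σ * τ) (N.mul_mem hσ hτ) q = Emb.act σ hσ (Emb.act τ hτ q) := rfl

/-- the action on embeddings as a permutation -/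
def Emb.perm (σ : Ω ≃ₐ[F] Ω) (hσ : σ ∈ N) : Equiv.Perm (Emb N E') where
  toFun := Emb.act σ hσ
  invFun := Emb.act σ⁻¹ (N.inv_mem hσ)
  left_inv q := Subtype.ext (AlgHom.ext fun x => σ.symm_apply_apply (q.1 x))
  right_inv q := Subtype.ext (AlgHom.ext fun x => σ.apply_symm_apply (q.1 x))

/-- `ν_q(σ)` -/
noncomputable def Emb.nu (σ : Ω ≃ₐ[F] Ω) (hσ : σ ∈ N) (q : Emb N E') : Ω ≃ₐ[F] Ω :=
  (Emb.act σ hσ q).rep⁻¹ * (σ * q.rep)

theorem Emb.nu_mem (σ : Ω ≃ₐ[F] Ω) (hσ : σ ∈ N) (q : Emb N E') :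
    Emb.nu σ hσ q ∈ N ⊓ E'.fixingSubgroup := by
  refine ⟨N.mul_mem (N.inv_mem (Emb.rep_mem _)) (N.mul_mem hσ (Emb.rep_mem _)), ?_⟩
  show Emb.nu σ hσ q ∈ E'.fixingSubgroup
  rw [IntermediateField.mem_fixingSubgroup_iff]
  intro x hx
  show (Emb.act σ hσ q).rep⁻¹ (σ (q.rep x)) = x
  have h1 : σ (q.rep x) = (Emb.act σ hσ q).rep x := by
    rw [q.rep_apply ⟨x, hx⟩, (Emb.act σ hσ q).rep_apply ⟨x, hx⟩]
    rfl
  rw [h1]
  exact AlgEquiv.symm_apply_apply _ x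

theorem Emb.rep_mul_nu (σ : Ω ≃ₐ[F] Ω) (hσ : σ ∈ N) (q : Emb N E') :
    (Emb.act σ hσ q).rep * Emb.nu σ hσ q = σ * q.rep := mul_inv_cancel_left _ _

theorem Emb.nu_mul (σ τ : Ω ≃ₐ[F] Ω) (hσ : σ ∈ N) (hτ : τ ∈ N) (q : Emb N E') :
    Emb.nu (σ * τ) (N.mul_mem hσ hτ) q =
      Emb.nu σ hσ (Emb.act τ hτ q) * Emb.nu τ hτ q := by
  show (Emb.act σ hσ (Emb.act τ hτ q)).rep⁻¹ * (σ * τ * q.rep) =
    (Emb.act σ hσ (Emb.act τ hτ q)).rep⁻¹ * (σ * (Emb.act τ hτ q).rep) *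
      ((Emb.act τ hτ q).rep⁻¹ * (τ * q.rep))
  group

end

/-- Transfer for cocycles which are trivial on the subgroup. -/
theorem transfer_one {N : Subgroup (Ω ≃ₐ[F] Ω)} {E' : IntermediateField F Ω}
    [FiniteDimensional F E'] [Fintype (Emb N E')]
    {c : (Ω ≃ₐ[F] Ω) → (Ω ≃ₐ[F] Ω) → Ωˣ} (hc : Coc N c)
    (h1 : ∀ σ ∈ N ⊓ E'.fixingSubgroup, ∀ τ ∈ N ⊓ E'.fixingSubgroup, c σ τ = 1) :
    ∀ σ, ∀ hσ : σ ∈ N, ∀ τ, ∀ hτ : τ ∈ N,
      c σ τ ^ Fintype.card (Emb N E') * ∏ q : Emb N E', (c (σ * τ) q.rep *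
        (c (Emb.act (σ * τ) (N.mul_mem hσ hτ) q).rep (Emb.nu (σ * τ) (N.mul_mem hσ hτ) q))⁻¹) =
      (∏ q : Emb N E', (c σ q.rep * (c (Emb.act σ hσ q).rep (Emb.nu σ hσ q))⁻¹)) *
        σ • ∏ q : Emb N E', (c τ q.rep * (c (Emb.act τ hτ q).rep (Emb.nu τ hτ q))⁻¹) := by
  intro σ hσ τ hτ
  have key : ∀ q : Emb N E', c σ τ * (c (σ * τ) q.rep *
        (c (Emb.act (σ * τ) (N.mul_mem hσ hτ) q).rep (Emb.nu (σ * τ) (N.mul_mem hσ hτ) q))⁻¹) =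
      (c σ (Emb.act τ hτ q).rep * (c (Emb.act σ hσ (Emb.act τ hτ q)).rep
        (Emb.nu σ hσ (Emb.act τ hτ q)))⁻¹) *
      (σ • c τ q.rep * (σ • c (Emb.act τ hτ q).rep (Emb.nu τ hτ q))⁻¹) := by
    intro q
    have e1 := hc σ hσ τ hτ q.rep q.rep_mem
    have e2 := hc σ hσ (Emb.act τ hτ q).rep (Emb.rep_mem _) (Emb.nu τ hτ q)
      (Emb.nu_mem τ hτ q).1
    have e3 := hc (Emb.act σ hσ (Emb.act τ hτ q)).rep (Emb.rep_mem _)
      (Emb.nu σ hσ (Emb.act τ hτ q)) (Emb.nu_mem σ hσ _).1 (Emb.nu τ hτ q)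
      (Emb.nu_mem τ hτ q).1
    rw [Emb.rep_mul_nu] at e2 e3
    rw [h1 _ (Emb.nu_mem σ hσ _) _ (Emb.nu_mem τ hτ q), smul_one, one_mul,
      ← Emb.nu_mul σ τ hσ hτ q] at e3
    have e4 := transfer_identity e1 e2 e3
    rw [Emb.act_mul σ τ hσ hτ, e4]
    apply Additive.ofMul.injective
    simp only [ofMul_mul, ofMul_inv]
    abel
  have h2 : ∏ q : Emb N E', (c σ (Emb.act τ hτ q).rep * (c (Emb.act σ hσ (Emb.act τ hτ q)).rep
        (Emb.nu σ hσ (Emb.act τ hτ q)))⁻¹) =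
      ∏ q : Emb N E', (c σ q.rep * (c (Emb.act σ hσ q).rep (Emb.nu σ hσ q))⁻¹) :=
    Equiv.prod_comp (Emb.perm τ hτ) (fun q : Emb N E' =>
      (c σ q.rep * (c (Emb.act σ hσ q).rep (Emb.nu σ hσ q))⁻¹))
  rw [← h2, Finset.smul_prod', ← Finset.prod_mul_distrib]
  have h3 : c σ τ ^ Fintype.card (Emb N E') = ∏ _q : Emb N E', c σ τ := by
    rw [Finset.prod_const, Finset.card_univ]
  rw [h3, ← Finset.prod_mul_distrib]
  refine Finset.prod_congr rfl (fun q _ => ?_)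
  rw [key q, smul_mul', smul_inv']

end Pool.Agent.T1B
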