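import Pool.Agent.T1B.Transfer2

/-!
# The transfer: classes which die on a subgroup of finite index are torsion
-/

set_option autoImplicit false

namespace Pool.Agent.T1B

universe u

variable {F Ω : Type u} [Field F] [Field Ω] [Algebra F Ω]

/-- the cochain `c` times the inverse of the coboundary of `b` -/
noncomputable def tw (c : (Ω ≃ₐ[F] Ω) → (Ω ≃ₐ[F] Ω) → Ωˣ) (b : (Ω ≃ₐ[F] Ω) → Ωˣ)
    (σ τ : Ω ≃ₐ[F] Ω) : Ωˣ := c σ τ * b (σ * τ) * (b σ * σ • b τ)⁻¹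

theorem tw_coc {N : Subgroup (Ω ≃ₐ[F] Ω)} {c : (Ω ≃ₐ[F] Ω) → (Ω ≃ₐ[F] Ω) → Ωˣ} (hc : Coc N c)
    (b : (Ω ≃ₐ[F] Ω) → Ωˣ) : Coc N (tw c b) := by
  intro σ hσ τ hτ ρ hρ
  have e := hc σ hσ τ hτ ρ hρ
  have e1 : c σ τ = σ • c τ ρ * c σ (τ * ρ) * (c (σ * τ) ρ)⁻¹ := by
    rw [← e, mul_inv_cancel_right]
  unfold tw
  rw [e1, mul_assoc σ τ ρ]
  simp only [smul_mul', smul_inv', mul_smul]
  apply Additive.ofMul.injective
  simp only [ofMul_mul, ofMul_inv]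
  abel

theorem tw_eqv {E : IntermediateField F Ω} (hE : Stable E)
    {c : (Ω ≃ₐ[F] Ω) → (Ω ≃ₐ[F] Ω) → Ωˣ} {b : (Ω ≃ₐ[F] Ω) → Ωˣ}
    (hc : ∀ σ σ' τ τ' : Ω ≃ₐ[F] Ω, Eqv E σ σ' → Eqv E τ τ' → c σ τ = c σ' τ')
    (hb : ∀ σ σ' : Ω ≃ₐ[F] Ω, Eqv E σ σ' → b σ = b σ')
    (hbE : ∀ σ, (b σ : Ω) ∈ E)
    (σ σ' τ τ' : Ω ≃ₐ[F] Ω) (h : Eqv E σ σ') (h' : Eqv E τ τ') : tw c b σ τ = tw c b σ' τ' := by
  unfold tw
  rw [hc σ σ' τ τ' h h', hb _ _ (Eqv.mul hE h h'), hb σ σ' h, hb τ τ' h']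
  have h1 : σ • b τ' = σ' • b τ' := Units.ext (h _ (hbE τ'))
  rw [h1]

theorem LC1.finite_range {b : (Ω ≃ₐ[F] Ω) → Ωˣ} (hb : LC1 b) : (Set.range b).Finite := by
  classical
  obtain ⟨E, hE, h⟩ := hb
  have hfin : Finite (E →ₐ[F] Ω) := inferInstance
  refine Set.Finite.subset (Set.finite_range (fun f : E →ₐ[F] Ω =>
    if hf : ∃ σ : Ω ≃ₐ[F] Ω, ∀ x : E, σ (x : Ω) = f x then b hf.choose else 1)) ?_
  rintro _ ⟨σ, rfl⟩
  have hf : ∃ τ : Ω ≃ₐ[F] Ω, ∀ x : E, τ (x : Ω) = (σ.toAlgHom.comp E.val) x := ⟨σ, fun _ => rfl⟩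
  refine ⟨σ.toAlgHom.comp E.val, ?_⟩
  simp only [dif_pos hf]
  exact h _ _ (fun x hx => hf.choose_spec ⟨x, hx⟩)

/-- a stable finite extension which contains a given one and the values of a continuous cochain -/
theorem exists_stable_values [Normal F Ω] (E : IntermediateField F Ω) [FiniteDimensional F E]
    {b : (Ω ≃ₐ[F] Ω) → Ωˣ} (hb : LC1 b) : ∃ E' : IntermediateField F Ω, FiniteDimensional F E' ∧
      Stable E' ∧ E ≤ E' ∧ ∀ σ, (b σ : Ω) ∈ E' := by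
  have hfin : ((fun u : Ωˣ => (u : Ω)) '' Set.range b).Finite := hb.finite_range.image _
  have h1 : FiniteDimensional F (IntermediateField.adjoin F
      ((fun u : Ωˣ => (u : Ω)) '' Set.range b)) := by
    have := hfin.to_subtype
    exact IntermediateField.finiteDimensional_adjoin
      (fun x _ => Algebra.IsIntegral.isIntegral x)
  have h2 : FiniteDimensional F (E ⊔ IntermediateField.adjoin F
      ((fun u : Ωˣ => (u : Ω)) '' Set.range b) : IntermediateField F Ω) :=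
    IntermediateField.finiteDimensional_sup _ _
  obtain ⟨E', h3, h4, h5⟩ := exists_stable (E ⊔ IntermediateField.adjoin F
      ((fun u : Ωˣ => (u : Ω)) '' Set.range b))
  refine ⟨E', h3, h4, le_sup_left.trans h5, fun σ => h5 ?_⟩
  refine (le_sup_right : _ ≤ E ⊔ _) (IntermediateField.subset_adjoin F _ ?_)
  exact ⟨b σ, ⟨σ, rfl⟩, rfl⟩

/-- Transfer: a continuous cocycle of `N` which is trivial on the subgroup fixing a finite extension
`E'` of `F` is torsion. -/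
theorem transfer [Normal F Ω] {N : Subgroup (Ω ≃ₐ[F] Ω)} {E' : IntermediateField F Ω}
    [FiniteDimensional F E'] [Fintype (Emb N E')] {c : (Ω ≃ₐ[F] Ω) → (Ω ≃ₐ[F] Ω) → Ωˣ}
    (hlc : LC2 c) (hc : Coc N c) (h : Triv (N ⊓ E'.fixingSubgroup) c) :
    Triv N (fun σ τ => c σ τ ^ Fintype.card (Emb N E')) := by
  classical
  obtain ⟨b, hb, hbe⟩ := h
  obtain ⟨Ec, hEc, hlc'⟩ := hlc
  obtain ⟨Eb, hEb, hb'⟩ := id hb
  have hfd : FiniteDimensional F (Ec ⊔ Eb ⊔ E' : IntermediateField F Ω) := by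
    have := IntermediateField.finiteDimensional_sup Ec Eb
    exact IntermediateField.finiteDimensional_sup _ _
  obtain ⟨E0, hE0, hst, hle, hval⟩ := exists_stable_values (Ec ⊔ Eb ⊔ E') hb
  have hEcE : Ec ≤ E0 := (le_sup_left.trans le_sup_left).trans hle
  have hEbE : Eb ≤ E0 := (le_sup_right.trans le_sup_left).trans hle
  have hE'E : E' ≤ E0 := le_sup_right.trans hle
  have heq : ∀ σ σ' τ τ' : Ω ≃ₐ[F] Ω, Eqv E0 σ σ' → Eqv E0 τ τ' → tw c b σ τ = tw c b σ' τ' :=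
    tw_eqv hst (fun σ σ' τ τ' h1 h2 => hlc' σ σ' τ τ' (Eqv.mono hEcE h1) (Eqv.mono hEcE h2))
      (fun σ σ' h1 => hb' σ σ' (Eqv.mono hEbE h1)) hval
  have h1 : ∀ σ ∈ N ⊓ E'.fixingSubgroup, ∀ τ ∈ N ⊓ E'.fixingSubgroup, tw c b σ τ = 1 := by
    intro σ hσ τ hτ
    unfold tw
    rw [hbe σ hσ τ hτ, mul_inv_cancel]
  have hmain := transfer_one (tw_coc hc b) h1
  obtain ⟨b1, hb1, hb1e⟩ := LC1.mk' (b := fun σ => if hσ : σ ∈ N then
    ∏ q : Emb N E', (tw c b σ q.rep * (tw c b (Emb.act σ hσ q).rep (Emb.nu σ hσ q))⁻¹) else 1)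
    (N : Set (Ω ≃ₐ[F] Ω)) E0 hE0 (by
      intro σ hσ σ' hσ' hss
      have hσ1 : σ ∈ N := hσ
      have hσ2 : σ' ∈ N := hσ'
      simp only [dif_pos hσ1, dif_pos hσ2]
      refine Finset.prod_congr rfl (fun q _ => ?_)
      have hact : Emb.act σ hσ1 q = Emb.act σ' hσ2 q := by
        refine Subtype.ext (AlgHom.ext fun x => ?_)
        show σ (q.1 x) = σ' (q.1 x)
        refine hss _ ?_
        rw [← q.rep_apply x]
        exact hst _ _ (hE'E x.2)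
      have hnu : Eqv E0 (Emb.nu σ hσ1 q) (Emb.nu σ' hσ2 q) := by
        unfold Emb.nu
        rw [hact]
        exact Eqv.mul hst (Eqv.refl _ _) (Eqv.mul hst hss (Eqv.refl _ _))
      rw [heq σ σ' _ _ hss (Eqv.refl _ _), heq _ _ _ _ (Eqv.refl _ _) hnu, hact])
  have hb1' : ∀ σ, ∀ hσ : σ ∈ N, b1 σ = ∏ q : Emb N E', (tw c b σ q.rep *
      (tw c b (Emb.act σ hσ q).rep (Emb.nu σ hσ q))⁻¹) := by
    intro σ hσ
    rw [hb1e σ hσ]
    simp only [dif_pos hσ]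
  refine ⟨_, hb1.mul (hb.pow (Fintype.card (Emb N E'))), fun σ hσ τ hτ => ?_⟩
  have h2 := hmain σ hσ τ hτ
  rw [← hb1' σ hσ, ← hb1' τ hτ, ← hb1' (σ * τ) (N.mul_mem hσ hτ)] at h2
  have h3 : c σ τ = tw c b σ τ * (b σ * σ • b τ) * (b (σ * τ))⁻¹ := by
    unfold tw
    rw [inv_mul_cancel_right, mul_inv_cancel_right]
  show c σ τ ^ Fintype.card (Emb N E') * (b1 (σ * τ) * b (σ * τ) ^ (Fintype.card (Emb N E') : ℤ)) =
    b1 σ * b σ ^ (Fintype.card (Emb N E') : ℤ) *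
      σ • (b1 τ * b τ ^ (Fintype.card (Emb N E') : ℤ))
  rw [zpow_natCast, zpow_natCast, zpow_natCast, h3, smul_mul', smul_pow', mul_pow, mul_pow, mul_pow,
    inv_pow]
  have h4 : tw c b σ τ ^ Fintype.card (Emb N E') = b1 σ * σ • b1 τ * (b1 (σ * τ))⁻¹ := by
    rw [← h2, mul_inv_cancel_right]
  rw [h4]
  apply Additive.ofMul.injective
  simp only [ofMul_mul, ofMul_inv]
  abel

end Pool.Agent.T1B
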