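import Mathlib

/-!
# The Tate conjecture for divisors in terms of the Brauer group of the function field

`F/k` is the function field of a variety `X` over `k`. The group `Br(F k^s)` is the group of classes
of continuous 2-cocycles of `N = Gal(Ω / F k^s)` with values in the units of an algebraic closure
`Ω` of `F`. The unramified classes are those which are trivial on the decomposition group of every
nontrivial valuation ring of `Ω` containing `k`.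
-/

set_option autoImplicit false

namespace Pool.Agent.T1B

universe u

section

variable (k F Ω : Type u) [Field k] [Field F] [Field Ω] [Algebra k Ω] [Algebra F Ω]

/-- the automorphisms of `Ω / F` which fix all elements algebraic over `k`: the Galois group of
`F k^s`, normal in the absolute Galois group of `F` -/
def geo : Subgroup (Ω ≃ₐ[F] Ω) where
  carrier := {σ | ∀ x : Ω, IsAlgebraic k x → σ x = x}
  mul_mem' {σ τ} hσ hτ x hx := by rw [AlgEquiv.mul_apply, hτ x hx, hσ x hx]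
  one_mem' _ _ := rfl
  inv_mem' {σ} hσ x hx := by
    have := hσ x hx
    calc σ⁻¹ x = σ⁻¹ (σ x) := by rw [this]
      _ = x := σ.symm_apply_apply x

end

variable {F Ω : Type u} [Field F] [Field Ω] [Algebra F Ω]

/-- continuous 1-cochains -/
def LC1 (b : (Ω ≃ₐ[F] Ω) → Ωˣ) : Prop :=
  ∃ E : IntermediateField F Ω, FiniteDimensional F E ∧
    ∀ σ σ' : Ω ≃ₐ[F] Ω, (∀ x ∈ E, σ x = σ' x) → b σ = b σ'

/-- continuous 2-cochains -/
def LC2 (c : (Ω ≃ₐ[F] Ω) → (Ω ≃ₐ[F] Ω) → Ωˣ) : Prop :=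
  ∃ E : IntermediateField F Ω, FiniteDimensional F E ∧
    ∀ σ σ' τ τ' : Ω ≃ₐ[F] Ω, (∀ x ∈ E, σ x = σ' x) → (∀ x ∈ E, τ x = τ' x) → c σ τ = c σ' τ'

/-- `c` is a 2-cocycle on `N` -/
def Coc (N : Subgroup (Ω ≃ₐ[F] Ω)) (c : (Ω ≃ₐ[F] Ω) → (Ω ≃ₐ[F] Ω) → Ωˣ) : Prop :=
  ∀ σ ∈ N, ∀ τ ∈ N, ∀ ρ ∈ N, c σ τ * c (σ * τ) ρ = σ • c τ ρ * c σ (τ * ρ)

/-- on `D` the 2-cochain `c` is the coboundary of a continuous 1-cochain -/
def Triv (D : Subgroup (Ω ≃ₐ[F] Ω)) (c : (Ω ≃ₐ[F] Ω) → (Ω ≃ₐ[F] Ω) → Ωˣ) : Prop :=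
  ∃ b : (Ω ≃ₐ[F] Ω) → Ωˣ, LC1 b ∧ ∀ σ ∈ D, ∀ τ ∈ D, c σ τ * b (σ * τ) = b σ * σ • b τ

/-- the decomposition group of a valuation ring -/
def stab (V : ValuationSubring Ω) : Subgroup (Ω ≃ₐ[F] Ω) where
  carrier := {σ | ∀ x : Ω, σ x ∈ V ↔ x ∈ V}
  mul_mem' {σ τ} hσ hτ x := by rw [AlgEquiv.mul_apply, hσ, hτ]
  one_mem' _ := Iff.rfl
  inv_mem' {σ} hσ x := by
    rw [← hσ (σ⁻¹ x)]
    exact iff_of_eq (congrArg (· ∈ V) (σ.apply_symm_apply x))

/-- `c 0, c 1, ...` represents an element of the Tate module `T_ℓ Br(F k^s)` (classes with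
`c 0 = 0` and `ℓ c (n + 1) = c n`) which is invariant under the absolute Galois group of `F` and
unramified over `k`. -/
structure Sys (k : Type u) [Field k] [Algebra k Ω] (ℓ : ℕ)
    (c : ℕ → (Ω ≃ₐ[F] Ω) → (Ω ≃ₐ[F] Ω) → Ωˣ) : Prop where
  lc : ∀ n, LC2 (c n)
  coc : ∀ n, Coc (geo k F Ω) (c n)
  zero : Triv (geo k F Ω) (c 0)
  step : ∀ n, Triv (geo k F Ω) (fun σ τ => c (n + 1) σ τ ^ ℓ * (c n σ τ)⁻¹)
  inv : ∀ n (g : Ω ≃ₐ[F] Ω), Triv (geo k F Ω)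
    (fun σ τ => g • c n (g⁻¹ * σ * g) (g⁻¹ * τ * g) * (c n σ τ)⁻¹)
  unr : ∀ n (V : ValuationSubring Ω), (∀ x : k, algebraMap k Ω x ∈ V) → V ≠ ⊤ →
    Triv (geo k F Ω ⊓ stab V) (c n)

/-- There are no invariant unramified elements but zero in `T_ℓ Br(F k^s)`, where `Ω` is an
algebraic closure of `F`. -/
def T1' (k F Ω : Type u) [Field k] [Field F] [Field Ω] [Algebra k Ω] [Algebra F Ω] (ℓ : ℕ) :
    Prop :=
  ∀ c : ℕ → (Ω ≃ₐ[F] Ω) → (Ω ≃ₐ[F] Ω) → Ωˣ, Sys k ℓ c → ∀ n, Triv (geo k F Ω) (c n)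

/-- The Tate conjecture for divisors for the varieties with function field `F`, in terms of the
unramified Brauer group: `T_ℓ Br(X_{k^s})^{G_k} = 0`. -/
def T1 (k F : Type u) [Field k] [Field F] [Algebra k F] (ℓ : ℕ) : Prop :=
  T1' k F (AlgebraicClosure F) ℓ

end Pool.Agent.T1B
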