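import Pool.Agent.T1B.Descent

/-!
# Independence of the algebraic closure; the theorem for dominated fields
-/

set_option autoImplicit false

namespace Pool.Agent.T1B

universe u

section

variable {k F Ω Ω' : Type u} [Field k] [Field F] [Field Ω] [Field Ω'] [Algebra F Ω]
  [Algebra F Ω']

/-- conjugation by an isomorphism of the algebraic closures -/
def cj (φ : Ω ≃ₐ[F] Ω') (σ : Ω ≃ₐ[F] Ω) : Ω' ≃ₐ[F] Ω' := (φ.symm.trans σ).trans φ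

theorem cj_mul (φ : Ω ≃ₐ[F] Ω') (σ τ : Ω ≃ₐ[F] Ω) : cj φ (σ * τ) = cj φ σ * cj φ τ := by
  ext x
  show φ (σ (τ (φ.symm x))) = φ (σ (φ.symm (φ (τ (φ.symm x)))))
  rw [φ.symm_apply_apply]

theorem cj_inv (φ : Ω ≃ₐ[F] Ω') (σ : Ω ≃ₐ[F] Ω) : cj φ σ⁻¹ = (cj φ σ)⁻¹ := rfl

theorem cj_symm (φ : Ω ≃ₐ[F] Ω') (σ : Ω' ≃ₐ[F] Ω') : cj φ (cj φ.symm σ) = σ := by
  ext x
  show φ (φ.symm (σ (φ (φ.symm x)))) = σ x
  rw [φ.apply_symm_apply, φ.apply_symm_apply]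

/-- the image of a unit -/
def um (φ : Ω' ≃ₐ[F] Ω) (u : Ω'ˣ) : Ωˣ := Units.map (φ : Ω' →* Ω) u

theorem um_mul (φ : Ω' ≃ₐ[F] Ω) (u v : Ω'ˣ) : um φ (u * v) = um φ u * um φ v := map_mul _ _ _

theorem um_inv (φ : Ω' ≃ₐ[F] Ω) (u : Ω'ˣ) : um φ u⁻¹ = (um φ u)⁻¹ := map_inv _ _

theorem um_pow (φ : Ω' ≃ₐ[F] Ω) (u : Ω'ˣ) (n : ℕ) : um φ (u ^ n) = um φ u ^ n := map_pow _ _ _

theorem um_smul (φ : Ω ≃ₐ[F] Ω') (σ : Ω ≃ₐ[F] Ω) (u : Ω'ˣ) :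
    um φ.symm (cj φ σ • u) = σ • um φ.symm u := by
  ext
  show φ.symm (φ (σ (φ.symm (u : Ω')))) = σ (φ.symm (u : Ω'))
  rw [φ.symm_apply_apply]

theorem um_symm (φ : Ω ≃ₐ[F] Ω') (u : Ωˣ) : um φ.symm (um φ u) = u := by
  ext
  exact φ.symm_apply_apply (u : Ω)

theorem um_symm' (φ : Ω ≃ₐ[F] Ω') (u : Ω'ˣ) : um φ (um φ.symm u) = u := by
  ext
  exact φ.apply_symm_apply (u : Ω')

theorem map_fd (φ : Ω' ≃ₐ[F] Ω) (E : IntermediateField F Ω') [FiniteDimensional F E] :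
    FiniteDimensional F (E.map (φ : Ω' →ₐ[F] Ω)) :=
  LinearEquiv.finiteDimensional (E.equivMap (φ : Ω' →ₐ[F] Ω)).toLinearEquiv

/-- transported 2-cochain -/
def tr (φ : Ω ≃ₐ[F] Ω') (c : (Ω' ≃ₐ[F] Ω') → (Ω' ≃ₐ[F] Ω') → Ω'ˣ) (σ τ : Ω ≃ₐ[F] Ω) : Ωˣ :=
  um φ.symm (c (cj φ σ) (cj φ τ))

theorem LC1.tr (φ : Ω ≃ₐ[F] Ω') {b : (Ω' ≃ₐ[F] Ω') → Ω'ˣ} (hb : LC1 b) :
    LC1 (fun σ : Ω ≃ₐ[F] Ω => um φ.symm (b (cj φ σ))) := by
  obtain ⟨E, hE, h⟩ := hb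
  refine ⟨E.map (φ.symm : Ω' →ₐ[F] Ω), map_fd φ.symm E, fun σ σ' hσ => ?_⟩
  show um φ.symm (b (cj φ σ)) = um φ.symm (b (cj φ σ'))
  rw [h (cj φ σ) (cj φ σ') (fun x hx => congrArg φ (hσ _ ⟨x, hx, rfl⟩))]

theorem LC2.tr (φ : Ω ≃ₐ[F] Ω') {c : (Ω' ≃ₐ[F] Ω') → (Ω' ≃ₐ[F] Ω') → Ω'ˣ} (hc : LC2 c) :
    LC2 (tr φ c) := by
  obtain ⟨E, hE, h⟩ := hc
  refine ⟨E.map (φ.symm : Ω' →ₐ[F] Ω), map_fd φ.symm E, fun σ σ' τ τ' hσ hτ => ?_⟩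
  show um φ.symm (c (cj φ σ) (cj φ τ)) = um φ.symm (c (cj φ σ') (cj φ τ'))
  rw [h (cj φ σ) (cj φ σ') (cj φ τ) (cj φ τ') (fun x hx => congrArg φ (hσ _ ⟨x, hx, rfl⟩))
    (fun x hx => congrArg φ (hτ _ ⟨x, hx, rfl⟩))]

theorem Triv.tr (φ : Ω ≃ₐ[F] Ω') {D' : Subgroup (Ω' ≃ₐ[F] Ω')} {D : Subgroup (Ω ≃ₐ[F] Ω)}
    (hD : ∀ σ ∈ D, cj φ σ ∈ D') {c : (Ω' ≃ₐ[F] Ω') → (Ω' ≃ₐ[F] Ω') → Ω'ˣ} (hc : Triv D' c) :
    Triv D (tr φ c) := by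
  obtain ⟨b, hb, h⟩ := hc
  refine ⟨_, hb.tr φ, fun σ hσ τ hτ => ?_⟩
  show um φ.symm (c (cj φ σ) (cj φ τ)) * um φ.symm (b (cj φ (σ * τ))) =
    um φ.symm (b (cj φ σ)) * σ • um φ.symm (b (cj φ τ))
  rw [cj_mul, ← um_mul, h _ (hD σ hσ) _ (hD τ hτ), um_mul, um_smul]

variable [Algebra k Ω] [Algebra k Ω']

theorem cj_geo {φ : Ω ≃ₐ[F] Ω'} (hφ : ∀ x : k, φ (algebraMap k Ω x) = algebraMap k Ω' x)
    {σ : Ω ≃ₐ[F] Ω} (hσ : σ ∈ geo k F Ω) : cj φ σ ∈ geo k F Ω' := by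
  intro x hx
  have h1 : IsAlgebraic k (φ.symm x) := by
    let ψ : Ω' →ₐ[k] Ω := { (φ.symm : Ω' →+* Ω) with
      commutes' := fun r => by
        show φ.symm (algebraMap k Ω' r) = algebraMap k Ω r
        rw [← hφ r, φ.symm_apply_apply] }
    exact IsAlgebraic.algHom ψ hx
  show φ (σ (φ.symm x)) = x
  rw [hσ _ h1, φ.apply_symm_apply]

/-- transport of a system -/
theorem Sys.tr {φ : Ω ≃ₐ[F] Ω'} (hφ : ∀ x : k, φ (algebraMap k Ω x) = algebraMap k Ω' x) {ℓ : ℕ}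
    {c : ℕ → (Ω' ≃ₐ[F] Ω') → (Ω' ≃ₐ[F] Ω') → Ω'ˣ} (h : Sys k ℓ c) :
    Sys k ℓ (fun n => T1B.tr φ (c n)) where
  lc n := (h.lc n).tr φ
  coc n σ hσ τ hτ ρ hρ := by
    show um φ.symm (c n (cj φ σ) (cj φ τ)) * um φ.symm (c n (cj φ (σ * τ)) (cj φ ρ)) =
      σ • um φ.symm (c n (cj φ τ) (cj φ ρ)) * um φ.symm (c n (cj φ σ) (cj φ (τ * ρ)))
    rw [cj_mul, cj_mul, ← um_smul, ← um_mul, ← um_mul,
      h.coc n _ (cj_geo hφ hσ) _ (cj_geo hφ hτ) _ (cj_geo hφ hρ)]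
  zero := h.zero.tr φ (fun _ hσ => cj_geo hφ hσ)
  step n := by
    refine ((h.step n).tr φ (fun _ hσ => cj_geo hφ hσ)).congr (fun σ _ τ _ => ?_)
    show um φ.symm (c (n + 1) (cj φ σ) (cj φ τ) ^ ℓ * (c n (cj φ σ) (cj φ τ))⁻¹) = _
    rw [um_mul, um_inv, um_pow]
    rfl
  inv n g := by
    refine ((h.inv n (cj φ g)).tr φ (fun _ hσ => cj_geo hφ hσ)).congr (fun σ _ τ _ => ?_)
    show um φ.symm (cj φ g • c n ((cj φ g)⁻¹ * cj φ σ * cj φ g) ((cj φ g)⁻¹ * cj φ τ * cj φ g) *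
      (c n (cj φ σ) (cj φ τ))⁻¹) = g • um φ.symm (c n (cj φ (g⁻¹ * σ * g)) (cj φ (g⁻¹ * τ * g))) *
      (um φ.symm (c n (cj φ σ) (cj φ τ)))⁻¹
    rw [um_mul, um_inv, um_smul, cj_mul, cj_mul, cj_mul, cj_mul, cj_inv]
  unr n V hV hV' := by
    have hD : ∀ σ ∈ geo k F Ω ⊓ stab V,
        cj φ σ ∈ geo k F Ω' ⊓ stab (V.comap (φ.symm : Ω' →+* Ω)) := by
      refine fun σ hσ => ⟨cj_geo hφ hσ.1, fun x => ?_⟩
      show φ.symm (φ (σ (φ.symm x))) ∈ V ↔ φ.symm x ∈ V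
      rw [φ.symm_apply_apply]
      exact hσ.2 _
    refine (h.unr n (V.comap (φ.symm : Ω' →+* Ω)) ?_ ?_).tr φ hD
    · intro x
      show φ.symm (algebraMap k Ω' x) ∈ V
      rw [← hφ x, φ.symm_apply_apply]
      exact hV x
    · intro htop
      refine hV' (top_le_iff.1 (fun x _ => ?_))
      have h1 : φ x ∈ V.comap (φ.symm : Ω' →+* Ω) := by
        rw [htop]
        exact ValuationSubring.mem_top _
      have h2 : φ.symm (φ x) ∈ V := h1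
      rwa [φ.symm_apply_apply] at h2

/-- Independence of the algebraic closure. -/
theorem T1'.transport {φ : Ω ≃ₐ[F] Ω'}
    (hφ : ∀ x : k, φ (algebraMap k Ω x) = algebraMap k Ω' x) {ℓ : ℕ} (h : T1' k F Ω ℓ) :
    T1' k F Ω' ℓ := by
  have hφ' : ∀ x : k, φ.symm (algebraMap k Ω' x) = algebraMap k Ω x := by
    intro x
    rw [← hφ x, φ.symm_apply_apply]
  intro c hc n
  have h1 := h _ (hc.tr hφ) n
  have h2 : Triv (geo k F Ω') (T1B.tr φ.symm (T1B.tr φ (c n))) :=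
    Triv.tr φ.symm (fun _ hσ => cj_geo (φ := φ.symm) hφ' hσ) h1
  refine h2.congr (fun σ _ τ _ => ?_)
  show um φ.symm.symm (um φ.symm (c n (cj φ (cj φ.symm σ)) (cj φ (cj φ.symm τ)))) = c n σ τ
  rw [cj_symm, cj_symm]
  exact um_symm' φ _

end

/-- The vanishing descends along finite extensions. -/
theorem T1.descend {k F F' : Type u} [Field k] [Field F] [Field F'] [Algebra k F] [Algebra k F']
    [Algebra F F'] [IsScalarTower k F F'] [FiniteDimensional F F'] {ℓ : ℕ} (hℓ : ℓ.Prime)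
    (h : T1 k F' ℓ) : T1 k F ℓ := by
  have hst : IsScalarTower F F' (AlgebraicClosure F') := inferInstance
  have halg : Algebra.IsAlgebraic F (AlgebraicClosure F') := Algebra.IsAlgebraic.trans F F' _
  have hcl : IsAlgClosure F (AlgebraicClosure F') := ⟨inferInstance, halg⟩
  have hn : Normal F (AlgebraicClosure F') := IsAlgClosure.normal F _
  have h1 : T1' k F (AlgebraicClosure F') ℓ := T1'.descend (F' := F') hℓ h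
  have hcl' : IsAlgClosure F (AlgebraicClosure F) := inferInstance
  let φ : AlgebraicClosure F' ≃ₐ[F] AlgebraicClosure F := IsAlgClosure.equiv F _ _
  refine T1'.transport (φ := φ) (fun x => ?_) h1
  have e1 : algebraMap k (AlgebraicClosure F') x =
      algebraMap F (AlgebraicClosure F') (algebraMap k F x) := by
    rw [IsScalarTower.algebraMap_apply k F' (AlgebraicClosure F'),
      IsScalarTower.algebraMap_apply F F' (AlgebraicClosure F'),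
      IsScalarTower.algebraMap_apply k F F']
  rw [e1, φ.commutes, ← IsScalarTower.algebraMap_apply k F (AlgebraicClosure F)]

end Pool.Agent.T1B
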