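import Pool.Agent.T1B.Transfer3

/-!
# Descent of the vanishing of invariant unramified classes along finite extensions
-/

set_option autoImplicit false

namespace Pool.Agent.T1B

universe u

section arithmetic

variable {F Ω : Type u} [Field F] [Field Ω] [Algebra F Ω]

theorem Sys.pow {k : Type u} [Field k] [Algebra k Ω] {ℓ : ℕ}
    {c : ℕ → (Ω ≃ₐ[F] Ω) → (Ω ≃ₐ[F] Ω) → Ωˣ} (h : Sys k ℓ c) (n : ℕ) : ∀ a : ℕ,
    Triv (geo k F Ω) (fun σ τ => c (n + a) σ τ ^ (ℓ ^ a) * (c n σ τ)⁻¹) := by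
  intro a
  induction a with
  | zero =>
    refine ⟨fun _ => 1, LC1.one, fun σ _ τ _ => ?_⟩
    show c (n + 0) σ τ ^ (ℓ ^ 0) * (c n σ τ)⁻¹ * 1 = 1 * σ • 1
    rw [pow_zero, pow_one, add_zero, mul_inv_cancel, smul_one]
  | succ a ih =>
    have h1 := (h.step (n + a)).pow ((ℓ ^ a : ℕ) : ℤ)
    refine (h1.mul ih).congr (fun σ _ τ _ => ?_)
    show (c (n + a + 1) σ τ ^ ℓ * (c (n + a) σ τ)⁻¹) ^ ((ℓ ^ a : ℕ) : ℤ) *
      (c (n + a) σ τ ^ (ℓ ^ a) * (c n σ τ)⁻¹) = c (n + (a + 1)) σ τ ^ (ℓ ^ (a + 1)) * (c n σ τ)⁻¹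
    rw [zpow_natCast, mul_pow, inv_pow, ← pow_mul, ← mul_assoc, inv_mul_cancel_right, pow_succ' ℓ a,
      add_assoc]

theorem Sys.triv_of_pow {k : Type u} [Field k] [Algebra k Ω] {ℓ : ℕ} (hℓ : ℓ.Prime)
    {c : ℕ → (Ω ≃ₐ[F] Ω) → (Ω ≃ₐ[F] Ω) → Ωˣ} (h : Sys k ℓ c) {m : ℕ} (hm : 0 < m)
    (h1 : ∀ n, Triv (geo k F Ω) (fun σ τ => c n σ τ ^ m)) (n : ℕ) :
    Triv (geo k F Ω) (c n) := by
  obtain ⟨a, m', hm', hmm⟩ := Nat.exists_eq_pow_mul_and_not_dvd hm.ne' ℓ hℓ.ne_one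
  -- `c n ^ m'` is trivial
  have e1 : Triv (geo k F Ω) (fun σ τ => c n σ τ ^ ((m' : ℕ) : ℤ)) := by
    have h2 := ((h.pow n a).pow (-(m' : ℤ))).mul (h1 (n + a))
    refine h2.congr (fun σ _ τ _ => ?_)
    show (c (n + a) σ τ ^ (ℓ ^ a) * (c n σ τ)⁻¹) ^ (-(m' : ℤ)) * c (n + a) σ τ ^ m =
      c n σ τ ^ ((m' : ℕ) : ℤ)
    rw [zpow_neg, zpow_natCast, zpow_natCast, mul_pow, inv_pow, ← pow_mul, ← hmm, mul_inv, inv_inv,
      mul_assoc, mul_comm (c n σ τ ^ m'), inv_mul_cancel_left]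
  have e2 : Triv (geo k F Ω) (fun σ τ => c n σ τ ^ ((ℓ ^ n : ℕ) : ℤ)) := by
    have h2 := (h.pow 0 n).mul h.zero
    refine h2.congr (fun σ _ τ _ => ?_)
    show c (0 + n) σ τ ^ (ℓ ^ n) * (c 0 σ τ)⁻¹ * c 0 σ τ = c n σ τ ^ ((ℓ ^ n : ℕ) : ℤ)
    rw [inv_mul_cancel_right, zero_add, zpow_natCast]
  have hcop : IsCoprime ((m' : ℕ) : ℤ) ((ℓ ^ n : ℕ) : ℤ) := by
    rw [Nat.isCoprime_iff_coprime]
    exact (Nat.Coprime.pow_left n ((Nat.Prime.coprime_iff_not_dvd hℓ).2 hm')).symm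
  obtain ⟨x, y, hxy⟩ := hcop
  refine ((e1.pow x).mul (e2.pow y)).congr (fun σ _ τ _ => ?_)
  show (c n σ τ ^ ((m' : ℕ) : ℤ)) ^ x * (c n σ τ ^ ((ℓ ^ n : ℕ) : ℤ)) ^ y = c n σ τ
  rw [← zpow_mul, ← zpow_mul, ← zpow_add, mul_comm _ x, mul_comm _ y, hxy, zpow_one]

end arithmetic

section descent

variable {k F F' Ω : Type u} [Field k] [Field F] [Field F'] [Field Ω] [Algebra F F']
  [Algebra F Ω] [Algebra F' Ω] [IsScalarTower F F' Ω]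

/-- the restriction of scalars `Gal(Ω/F') → Gal(Ω/F)` -/
def res (F : Type u) [Field F] [Algebra F F'] [Algebra F Ω] [IsScalarTower F F' Ω]
    (σ : Ω ≃ₐ[F'] Ω) : Ω ≃ₐ[F] Ω := σ.restrictScalars F

theorem exists_ext (E : IntermediateField F Ω) [FiniteDimensional F E] [Algebra.IsIntegral F' Ω] :
    ∃ E' : IntermediateField F' Ω, FiniteDimensional F' E' ∧ ∀ x ∈ E, x ∈ E' := by
  have hfg : E.FG := IntermediateField.fg_of_fg_toSubalgebra E (Subalgebra.fg_of_fg_toSubmodule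
    (Module.Finite.iff_fg.1 (inferInstanceAs (Module.Finite F E))))
  obtain ⟨s, hs⟩ := hfg
  refine ⟨IntermediateField.adjoin F' (s : Set Ω), ?_, ?_⟩
  · exact IntermediateField.finiteDimensional_adjoin
      (fun x _ => Algebra.IsIntegral.isIntegral x)
  · intro x hx
    have h1 : E ≤ (IntermediateField.adjoin F' (s : Set Ω)).restrictScalars F := by
      rw [← hs, IntermediateField.adjoin_le_iff]
      exact IntermediateField.subset_adjoin F' _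
    exact h1 hx

theorem LC1.res [Algebra.IsIntegral F' Ω] {b : (Ω ≃ₐ[F] Ω) → Ωˣ} (hb : LC1 b) :
    LC1 (fun σ : Ω ≃ₐ[F'] Ω => b (res F σ)) := by
  obtain ⟨E, hE, h⟩ := hb
  obtain ⟨E', hE', h'⟩ := exists_ext (F' := F') E
  exact ⟨E', hE', fun σ σ' hσ => h _ _ (fun x hx => hσ x (h' x hx))⟩

theorem LC2.res [Algebra.IsIntegral F' Ω] {c : (Ω ≃ₐ[F] Ω) → (Ω ≃ₐ[F] Ω) → Ωˣ} (hc : LC2 c) :
    LC2 (fun σ τ : Ω ≃ₐ[F'] Ω => c (res F σ) (res F τ)) := by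
  obtain ⟨E, hE, h⟩ := hc
  obtain ⟨E', hE', h'⟩ := exists_ext (F' := F') E
  exact ⟨E', hE', fun σ σ' τ τ' hσ hτ => h _ _ _ _ (fun x hx => hσ x (h' x hx))
    (fun x hx => hτ x (h' x hx))⟩

theorem Triv.res [Algebra.IsIntegral F' Ω] {D : Subgroup (Ω ≃ₐ[F] Ω)}
    {D' : Subgroup (Ω ≃ₐ[F'] Ω)} (hD : ∀ σ ∈ D', res F σ ∈ D)
    {c : (Ω ≃ₐ[F] Ω) → (Ω ≃ₐ[F] Ω) → Ωˣ} (hc : Triv D c) :
    Triv D' (fun σ τ : Ω ≃ₐ[F'] Ω => c (res F σ) (res F τ)) := by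
  obtain ⟨b, hb, h⟩ := hc
  exact ⟨_, hb.res, fun σ hσ τ hτ => h _ (hD σ hσ) _ (hD τ hτ)⟩

variable [Algebra k Ω]

theorem sys_res [Algebra.IsIntegral F' Ω] {ℓ : ℕ} {c : ℕ → (Ω ≃ₐ[F] Ω) → (Ω ≃ₐ[F] Ω) → Ωˣ}
    (h : Sys k ℓ c) : Sys k ℓ (fun n (σ τ : Ω ≃ₐ[F'] Ω) => c n (res F σ) (res F τ)) where
  lc n := LC2.res (F' := F') (h.lc n)
  coc n σ hσ τ hτ ρ hρ := h.coc n (res F σ) hσ (res F τ) hτ (res F ρ) hρ
  zero := Triv.res (F := F) (F' := F') (D := geo k F Ω) (c := c 0) (fun _ hσ => hσ) h.zero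
  step n := Triv.res (F := F) (F' := F') (D := geo k F Ω)
    (c := fun σ τ => c (n + 1) σ τ ^ ℓ * (c n σ τ)⁻¹) (fun _ hσ => hσ) (h.step n)
  inv n g := Triv.res (F := F) (F' := F') (D := geo k F Ω)
    (c := fun σ τ => res F g • c n ((res F g)⁻¹ * σ * res F g) ((res F g)⁻¹ * τ * res F g) *
      (c n σ τ)⁻¹) (fun _ hσ => hσ) (h.inv n (res F g))
  unr n V hV hV' := Triv.res (F := F) (F' := F') (D := geo k F Ω ⊓ stab V) (c := c n)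
    (fun _ hσ => hσ) (h.unr n V hV hV')

/-- an automorphism over `F` which fixes `F'` -/
def lift' (σ : Ω ≃ₐ[F] Ω) (hσ : ∀ x : F', σ (algebraMap F' Ω x) = algebraMap F' Ω x) :
    Ω ≃ₐ[F'] Ω := AlgEquiv.ofRingEquiv (f := σ.toRingEquiv) hσ

theorem Triv.of_res [FiniteDimensional F F'] {c : (Ω ≃ₐ[F] Ω) → (Ω ≃ₐ[F] Ω) → Ωˣ}
    (h : Triv (geo k F' Ω) (fun σ τ : Ω ≃ₐ[F'] Ω => c (Pool.Agent.T1B.res F σ) (Pool.Agent.T1B.res F τ))) :
    Triv (geo k F Ω ⊓ (IsScalarTower.toAlgHom F F' Ω).fieldRange.fixingSubgroup) c := by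
  classical
  obtain ⟨b, ⟨E, hE, hb⟩, h⟩ := h
  have hfix : ∀ σ ∈ (IsScalarTower.toAlgHom F F' Ω).fieldRange.fixingSubgroup, ∀ x : F',
      σ (algebraMap F' Ω x) = algebraMap F' Ω x := by
    intro σ hσ x
    rw [IntermediateField.mem_fixingSubgroup_iff] at hσ
    exact hσ _ ⟨x, rfl⟩
  have hfd : FiniteDimensional F (E.restrictScalars F) := by
    have h1 : FiniteDimensional F' E := hE
    exact FiniteDimensional.trans F F' E
  obtain ⟨b', hb', hbe⟩ := LC1.mk' (b := fun σ : Ω ≃ₐ[F] Ω =>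
    if hσ : σ ∈ (IsScalarTower.toAlgHom F F' Ω).fieldRange.fixingSubgroup then
      b (lift' σ (hfix σ hσ)) else 1)
    ((IsScalarTower.toAlgHom F F' Ω).fieldRange.fixingSubgroup : Set (Ω ≃ₐ[F] Ω))
    (E.restrictScalars F) hfd (by
      intro σ hσ σ' hσ' hss
      have h1 : σ ∈ (IsScalarTower.toAlgHom F F' Ω).fieldRange.fixingSubgroup := hσ
      have h2 : σ' ∈ (IsScalarTower.toAlgHom F F' Ω).fieldRange.fixingSubgroup := hσ'
      simp only [dif_pos h1, dif_pos h2]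
      exact hb _ _ (fun x hx => hss x hx))
  have hbe' : ∀ σ, ∀ hσ : σ ∈ (IsScalarTower.toAlgHom F F' Ω).fieldRange.fixingSubgroup,
      b' σ = b (lift' σ (hfix σ hσ)) := by
    intro σ hσ
    rw [hbe σ hσ]
    simp only [dif_pos hσ]
  refine ⟨b', hb', fun σ hσ τ hτ => ?_⟩
  have h1 := h (lift' σ (hfix σ hσ.2)) hσ.1 (lift' τ (hfix τ hτ.2)) hτ.1
  rw [hbe' σ hσ.2, hbe' τ hτ.2, hbe' (σ * τ) (Subgroup.mul_mem _ hσ.2 hτ.2)]
  exact h1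

/-- Descent along a finite extension, for the same algebraic closure. -/
theorem T1'.descend [Normal F Ω] [FiniteDimensional F F'] {ℓ : ℕ}
    (hℓ : ℓ.Prime) (h : T1' k F' Ω ℓ) : T1' k F Ω ℓ := by
  have hint : Algebra.IsIntegral F' Ω :=
    ⟨fun x => (Algebra.IsIntegral.isIntegral (R := F) x).tower_top⟩
  intro c hc n
  have h1 := h _ (sys_res (F' := F') hc)
  have hfd : FiniteDimensional F (IsScalarTower.toAlgHom F F' Ω).fieldRange :=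
    (IsScalarTower.toAlgHom F F' Ω).toLinearMap.finiteDimensional_range
  have hfin : Finite (Emb (geo k F Ω) (IsScalarTower.toAlgHom F F' Ω).fieldRange) := inferInstance
  have hft : Fintype (Emb (geo k F Ω) (IsScalarTower.toAlgHom F F' Ω).fieldRange) :=
    Fintype.ofFinite _
  have hne : Nonempty (Emb (geo k F Ω) (IsScalarTower.toAlgHom F F' Ω).fieldRange) :=
    ⟨⟨IntermediateField.val _, 1, Subgroup.one_mem _, fun _ => rfl⟩⟩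
  refine hc.triv_of_pow hℓ (m := Fintype.card (Emb (geo k F Ω)
    (IsScalarTower.toAlgHom F F' Ω).fieldRange)) Fintype.card_pos (fun n => ?_) n
  exact transfer (hc.lc n) (hc.coc n) (Triv.of_res (h1 n))

end descent

end Pool.Agent.T1B
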